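import Mathlib

namespace Pool.Agent.Results.MP_339db1_al.NotGenerated

/-- A `d`-CP structure on a monoid `M`: distinguished elements `τ` and a bijection
`Φ : M ^ d → M` with `τ i * Φ m = m i`. -/
structure DCP (M : Type) [Monoid M] (d : ℕ) where
  Φ : (Fin d → M) → M
  τ : Fin d → M
  bij : Function.Bijective Φ
  proj : ∀ (i : Fin d) (m : Fin d → M), τ i * Φ m = m i

/-- The `1`-CP structure `(id; 1)`. -/
def idDCP (M : Type) [Monoid M] : DCP M 1 where
  Φ m := m 0
  τ _ := 1
  bij := by
    constructor
    · intro m m' h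
      funext i
      rw [Subsingleton.elim i 0]
      exact h
    · intro x
      exact ⟨fun _ => x, rfl⟩
  proj i m := by rw [one_mul, Subsingleton.elim i 0]

/-- The combination of an `s`-CP structure with `s` structures of arities `d i`. -/
def combine {M : Type} [Monoid M] {s : ℕ} (Ψ : DCP M s) (d : Fin s → ℕ)
    (F : (i : Fin s) → DCP M (d i)) : DCP M (∑ i, d i) where
  Φ m := Ψ.Φ (fun i => (F i).Φ (fun j => m (finSigmaFinEquiv ⟨i, j⟩)))
  τ k := (F (finSigmaFinEquiv.symm k).1).τ (finSigmaFinEquiv.symm k).2 *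
    Ψ.τ (finSigmaFinEquiv.symm k).1
  bij := by
    constructor
    · intro m m' h
      have h1 := Ψ.bij.1 h
      funext k
      obtain ⟨⟨i, j⟩, rfl⟩ := finSigmaFinEquiv.surjective k
      have h2 := congrFun h1 i
      exact congrFun ((F i).bij.1 h2) j
    · intro x
      obtain ⟨y, hy⟩ := Ψ.bij.2 x
      choose z hz using fun i => (F i).bij.2 (y i)
      refine ⟨fun k => z (finSigmaFinEquiv.symm k).1 (finSigmaFinEquiv.symm k).2, ?_⟩
      rw [← hy]
      show Ψ.Φ _ = Ψ.Φ y
      congr 1
      funext i
      rw [← hz i]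
      congr 1
      funext j
      have key : ∀ q : (i : Fin s) × Fin (d i), q = ⟨i, j⟩ → z q.1 q.2 = z i j := by
        rintro q rfl
        rfl
      exact key _ (finSigmaFinEquiv.symm_apply_apply ⟨i, j⟩)
  proj k m := by
    obtain ⟨⟨i, j⟩, rfl⟩ := finSigmaFinEquiv.surjective k
    rw [mul_assoc, Ψ.proj, (F _).proj]
    simp

/-- The set `𝕊(M)` of structures obtained from `(Σ; π₁, π₂)` and `(id; 1)` by combination. -/
inductive InS {M : Type} [Monoid M] (C : DCP M 2) : (d : ℕ) → DCP M d → Prop
  | base : InS C 2 C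
  | one : InS C 1 (idDCP M)
  | comb (s : ℕ) (Ψ : DCP M s) (d : Fin s → ℕ) (F : (i : Fin s) → DCP M (d i)) :
      InS C s Ψ → (∀ i, InS C (d i) (F i)) → InS C (∑ i, d i) (combine Ψ d F)

/-- The map `φ_Φ` from self-maps of `{1, ..., d}` to `M`. -/
def phi {M : Type} [Monoid M] {d : ℕ} (P : DCP M d) (f : Fin d → Fin d) : M :=
  P.Φ (fun i => P.τ (f i))

/-- The submonoid `G` generated by all `φ_Φ (E_d)`, `d ≥ 2`, `Φ ∈ 𝕊(M)`. -/
def G {M : Type} [Monoid M] (C : DCP M 2) : Submonoid M :=
  Submonoid.closure {x | ∃ (d : ℕ) (P : DCP M d) (f : Fin d → Fin d),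
    2 ≤ d ∧ InS C d P ∧ x = phi P f}

/-- A homomorphism of CP monoids. -/
def IsCPHom {M N : Type} [Monoid M] [Monoid N] (C : DCP M 2) (D : DCP N 2) (f : M →* N) : Prop :=
  (∀ i, f (C.τ i) = D.τ i) ∧ ∀ m : Fin 2 → M, f (C.Φ m) = D.Φ (fun i => f (m i))

/-- `(M, C)` is the universal CP monoid: it has exactly one CP homomorphism to each CP monoid. -/
def IsUniversal {M : Type} [Monoid M] (C : DCP M 2) : Prop :=
  ∀ (N : Type) [Monoid N] (D : DCP N 2), ∃! f : M →* N, IsCPHom C D f

/-! ### Existence of the universal CP monoid -/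

inductive Term : Type
  | one : Term
  | p1 : Term
  | p2 : Term
  | mul : Term → Term → Term
  | pair : Term → Term → Term

inductive TRel : Term → Term → Prop
  | refl (a : Term) : TRel a a
  | symm {a b : Term} : TRel a b → TRel b a
  | trans {a b c : Term} : TRel a b → TRel b c → TRel a c
  | mul {a b c d : Term} : TRel a b → TRel c d → TRel (a.mul c) (b.mul d)
  | pair {a b c d : Term} : TRel a b → TRel c d → TRel (a.pair c) (b.pair d)
  | assoc (a b c : Term) : TRel ((a.mul b).mul c) (a.mul (b.mul c))
  | one_mul (a : Term) : TRel (Term.one.mul a) a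
  | mul_one (a : Term) : TRel (a.mul Term.one) a
  | proj1 (a b : Term) : TRel (Term.p1.mul (a.pair b)) a
  | proj2 (a b : Term) : TRel (Term.p2.mul (a.pair b)) b
  | eta (a : Term) : TRel ((Term.p1.mul a).pair (Term.p2.mul a)) a

def termSetoid : Setoid Term := ⟨TRel, ⟨TRel.refl, TRel.symm, TRel.trans⟩⟩

def U : Type := Quotient termSetoid

instance : Monoid U where
  mul := Quotient.map₂ Term.mul (fun _ _ h _ _ h' => TRel.mul h h')
  one := Quotient.mk termSetoid Term.one
  mul_assoc a b c := by
    refine Quotient.inductionOn₃ a b c (fun a b c => Quotient.sound (TRel.assoc a b c))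
  one_mul a := Quotient.inductionOn a (fun a => Quotient.sound (TRel.one_mul a))
  mul_one a := Quotient.inductionOn a (fun a => Quotient.sound (TRel.mul_one a))

def upair : U → U → U := Quotient.map₂ Term.pair (fun _ _ h _ _ h' => TRel.pair h h')

def up1 : U := Quotient.mk termSetoid Term.p1
def up2 : U := Quotient.mk termSetoid Term.p2

theorem up1_pair (a b : U) : up1 * upair a b = a :=
  Quotient.inductionOn₂ a b (fun a b => Quotient.sound (TRel.proj1 a b))

theorem up2_pair (a b : U) : up2 * upair a b = b :=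
  Quotient.inductionOn₂ a b (fun a b => Quotient.sound (TRel.proj2 a b))

theorem upair_eta (a : U) : upair (up1 * a) (up2 * a) = a :=
  Quotient.inductionOn a (fun a => Quotient.sound (TRel.eta a))

def UC : DCP U 2 where
  Φ m := upair (m 0) (m 1)
  τ := ![up1, up2]
  bij := by
    constructor
    · intro m m' h
      funext i
      fin_cases i
      · have := congrArg (fun x => up1 * x) h
        simpa [up1_pair] using this
      · have := congrArg (fun x => up2 * x) h
        simpa [up2_pair] using this
    · intro x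
      exact ⟨![up1 * x, up2 * x], upair_eta x⟩
  proj i m := by
    fin_cases i
    · exact up1_pair _ _
    · exact up2_pair _ _

def evalTerm {N : Type} [Monoid N] (D : DCP N 2) : Term → N
  | Term.one => 1
  | Term.p1 => D.τ 0
  | Term.p2 => D.τ 1
  | Term.mul a b => evalTerm D a * evalTerm D b
  | Term.pair a b => D.Φ ![evalTerm D a, evalTerm D b]

theorem DCP.ext' {M : Type} [Monoid M] {d : ℕ} (P : DCP M d) {x y : M}
    (h : ∀ i, P.τ i * x = P.τ i * y) : x = y := by
  obtain ⟨m, rfl⟩ := P.bij.2 x
  obtain ⟨m', rfl⟩ := P.bij.2 y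
  congr 1
  funext i
  have := h i
  rwa [P.proj, P.proj] at this

theorem evalTerm_rel {N : Type} [Monoid N] (D : DCP N 2) {a b : Term} (h : TRel a b) :
    evalTerm D a = evalTerm D b := by
  induction h with
  | refl a => rfl
  | symm _ ih => exact ih.symm
  | trans _ _ ih1 ih2 => exact ih1.trans ih2
  | mul _ _ ih1 ih2 => simp only [evalTerm, ih1, ih2]
  | pair _ _ ih1 ih2 => simp only [evalTerm, ih1, ih2]
  | assoc a b c => simp only [evalTerm, _root_.mul_assoc]
  | one_mul a => simp only [evalTerm, _root_.one_mul]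
  | mul_one a => simp only [evalTerm, _root_.mul_one]
  | proj1 a b => simp only [evalTerm]; rw [D.proj]; rfl
  | proj2 a b => simp only [evalTerm]; rw [D.proj]; rfl
  | eta a =>
    simp only [evalTerm]
    apply D.ext'
    intro i
    rw [D.proj]
    fin_cases i <;> rfl

def evalHom {N : Type} [Monoid N] (D : DCP N 2) : U →* N where
  toFun := Quotient.lift (evalTerm D) (fun _ _ h => evalTerm_rel D h)
  map_one' := rfl
  map_mul' a b := by
    refine Quotient.inductionOn₂ a b (fun a b => rfl)

theorem UC_universal : IsUniversal UC := by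
  intro N _ D
  refine ⟨evalHom D, ⟨?_, ?_⟩, ?_⟩
  · intro i
    fin_cases i <;> rfl
  · intro m
    have h : ∀ a b : U, evalHom D (upair a b) = D.Φ ![evalHom D a, evalHom D b] := by
      intro a b
      refine Quotient.inductionOn₂ a b (fun a b => rfl)
    show evalHom D (upair (m 0) (m 1)) = _
    rw [h]
    congr 1
    funext i
    fin_cases i <;> rfl
  · intro f hf
    have key : ∀ t : Term, f (Quotient.mk termSetoid t) = evalTerm D t := by
      intro t
      induction t with
      | one => exact f.map_one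
      | p1 => exact hf.1 0
      | p2 => exact hf.1 1
      | mul a b iha ihb =>
        have h1 := f.map_mul (@id U (Quotient.mk termSetoid a)) (@id U (Quotient.mk termSetoid b))
        simp only [id] at h1
        rw [iha, ihb] at h1
        exact h1
      | pair a b iha ihb =>
        have h1 := hf.2 ![Quotient.mk termSetoid a, Quotient.mk termSetoid b]
        have h2 : (fun i => f ((![Quotient.mk termSetoid a, Quotient.mk termSetoid b] :
            Fin 2 → U) i)) = ![evalTerm D a, evalTerm D b] := by
          funext i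
          fin_cases i
          · exact iha
          · exact ihb
        rw [h2] at h1
        exact h1
    ext x
    refine Quotient.inductionOn x (fun t => ?_)
    exact key t

/-! ### A non-trivial CP monoid -/

def endCP : DCP (Function.End ℕ) 2 where
  Φ m := fun x => Nat.pair (m 0 x) (m 1 x)
  τ := ![fun x => (Nat.unpair x).1, fun x => (Nat.unpair x).2]
  bij := by
    constructor
    · intro m m' h
      funext i x
      have h1 := congrFun h x
      have h2 := congrArg Nat.unpair h1
      simp only [Nat.unpair_pair, Prod.mk.injEq] at h2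
      fin_cases i
      · exact h2.1
      · exact h2.2
    · intro f
      refine ⟨![fun x => (Nat.unpair (f x)).1, fun x => (Nat.unpair (f x)).2], ?_⟩
      funext x
      exact Nat.pair_unpair (f x)
  proj i m := by
    fin_cases i
    · funext x
      show (Nat.unpair (Nat.pair (m 0 x) (m 1 x))).1 = m 0 x
      rw [Nat.unpair_pair]
    · funext x
      show (Nat.unpair (Nat.pair (m 0 x) (m 1 x))).2 = m 1 x
      rw [Nat.unpair_pair]

/-! ### The argument -/

theorem phi_mul {M : Type} [Monoid M] {d : ℕ} (P : DCP M d) (f g : Fin d → Fin d) :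
    phi P f * phi P g = phi P (g ∘ f) := by
  apply P.ext'
  intro i
  rw [← mul_assoc, phi, P.proj, phi, P.proj, phi, P.proj]
  rfl

theorem phi_id {M : Type} [Monoid M] {d : ℕ} (P : DCP M d) : phi P id = 1 := by
  apply P.ext'
  intro i
  rw [phi, P.proj, mul_one]
  rfl

theorem unit_of_right_inv {M : Type} [Monoid M] [Nontrivial M] {d : ℕ} (P : DCP M d)
    (f : Fin d → Fin d) (h : ∃ y, phi P f * y = 1) : IsUnit (phi P f) := by
  obtain ⟨y, hy⟩ := h
  have hτ : Function.Injective P.τ := by
    intro i j hij
    by_contra hne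
    obtain ⟨a, b, hab⟩ := exists_pair_ne M
    have h1 := P.proj i (fun k => if k = i then a else b)
    have h2 := P.proj j (fun k => if k = i then a else b)
    rw [← hij, h1] at h2
    simp only [if_true] at h2
    rw [if_neg (fun h => hne h.symm)] at h2
    exact hab h2
  have hf : Function.Injective f := by
    intro i j hij
    apply hτ
    have h1 : P.τ i * phi P f = P.τ j * phi P f := by
      rw [phi, P.proj, P.proj, hij]
    calc P.τ i = P.τ i * phi P f * y := by rw [mul_assoc, hy, mul_one]
      _ = P.τ j * phi P f * y := by rw [h1]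
      _ = P.τ j := by rw [mul_assoc, hy, mul_one]
  have hb : Function.Bijective f := Finite.injective_iff_bijective.mp hf
  let e := Equiv.ofBijective f hb
  have he : (e : Fin d → Fin d) = f := rfl
  refine ⟨⟨phi P f, phi P e.symm, ?_, ?_⟩, rfl⟩
  · rw [phi_mul, ← he]
    have : (e.symm : Fin d → Fin d) ∘ e = id := by funext i; simp
    rw [this, phi_id]
  · rw [phi_mul, ← he]
    have : (e : Fin d → Fin d) ∘ e.symm = id := by funext i; simp
    rw [this, phi_id]

theorem unit_of_mem_G {M : Type} [Monoid M] [Nontrivial M] (C : DCP M 2) (x : M) (hx : x ∈ G C) :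
    (∃ y, x * y = 1) → IsUnit x := by
  induction hx using Submonoid.closure_induction with
  | mem x hx =>
    obtain ⟨d, P, f, -, -, rfl⟩ := hx
    exact unit_of_right_inv P f
  | one => exact fun _ => isUnit_one
  | mul x y hx hy h1 h2 =>
    rintro ⟨w, hw⟩
    have hxu : IsUnit x := h1 ⟨y * w, by rw [← mul_assoc, hw]⟩
    refine hxu.mul (h2 ⟨w * x, ?_⟩)
    obtain ⟨u, rfl⟩ := hxu
    have : y * w = ↑u⁻¹ := by
      rw [mul_assoc] at hw
      calc y * w = ↑u⁻¹ * (↑u * (y * w)) := by rw [← mul_assoc, Units.inv_mul, one_mul]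
        _ = ↑u⁻¹ := by rw [hw, mul_one]
    rw [← mul_assoc, this, Units.inv_mul]

theorem pi_not_mem {M : Type} [Monoid M] [Nontrivial M] (C : DCP M 2) : C.τ 0 ∉ G C := by
  intro h
  have hu : IsUnit (C.τ 0) := unit_of_mem_G C _ h ⟨C.Φ (fun _ => 1), C.proj 0 _⟩
  obtain ⟨a, b, hab⟩ := exists_pair_ne M
  have h1 : C.τ 0 * C.Φ ![1, a] = C.τ 0 * C.Φ ![1, b] := by
    rw [C.proj, C.proj]; rfl
  have h2 := C.bij.1 (hu.mul_left_cancel h1)
  exact hab (congrFun h2 1)

theorem result :
    (∃ (M : Type) (_ : Monoid M) (C : DCP M 2), IsUniversal C) ∧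
    ∀ (M : Type) [Monoid M] (C : DCP M 2), IsUniversal C → C.τ 0 ∉ G C := by
  refine ⟨⟨U, inferInstance, UC, UC_universal⟩, ?_⟩
  intro M _ C hC
  obtain ⟨f, hf, -⟩ := hC (Function.End ℕ) endCP
  have : Nontrivial M := by
    refine ⟨⟨C.τ 0, 1, ?_⟩⟩
    intro h
    have h1 : endCP.τ 0 = 1 := by
      rw [← hf.1 0, h, map_one]
    have h2 := congrFun h1 2
    revert h2
    show (Nat.unpair 2).1 = 2 → False
    have : Nat.unpair 2 = (1, 0) := Nat.unpair_pair 1 0
    rw [this]
    decide
  exact pi_not_mem C

end Pool.Agent.Results.MP_339db1_al.NotGenerated
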